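import Mathlib

set_option autoImplicit false

namespace Pool.Agent.H.MP_81d707_al

/-- Sign of the point `x` with respect to the colour `c` on path `q`. -/
def sg (m q c : ℕ) (x : ℕ × ℕ) : Option Bool :=
  if x.1 = q ∧ (x.2 = c ∨ x.2 = c + 2 * m) then none
  else if x.1 = q ∧ c < x.2 ∧ x.2 < c + 2 * m then some true else some false

/-- Colour of an edge position. -/
def col (m s : ℕ) : ℕ := if s < 2 * m then s else s - 2 * m

/-- Normal form: the two ends of all paths are glued. -/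
def nrm (m p s : ℕ) : ℕ × ℕ := if s = 0 ∨ s = 4 * m then (0, s) else (p, s)

/-- Raw multiplication. -/
def rm (m : ℕ) (x y : ℕ × ℕ) : ℕ × ℕ :=
  if x.2 % 2 = 0 then x
  else if sg m x.1 (col m x.2) y = none then x
  else if (sg m x.1 (col m x.2) y = some true ↔ x.2 < 2 * m) then nrm m x.1 (x.2 + 1)
  else nrm m x.1 (x.2 - 1)

/-- Valid points. -/
def Ok (k m : ℕ) (x : ℕ × ℕ) : Prop :=
  x.1 ≤ k ∧ x.2 ≤ 4 * m ∧ ((x.2 = 0 ∨ x.2 = 4 * m) → x.1 = 0)

/-- `z` is `x` or an end point of the edge `x`. -/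
def Near (m : ℕ) (x z : ℕ × ℕ) : Prop :=
  z = x ∨ (x.2 % 2 = 1 ∧ (z = nrm m x.1 (x.2 + 1) ∨ z = nrm m x.1 (x.2 - 1)))

theorem near_rm (m : ℕ) (x y : ℕ × ℕ) : Near m x (rm m x y) := by
  unfold rm Near
  split_ifs with h1 h2 h3
  · exact Or.inl rfl
  · exact Or.inl rfl
  · exact Or.inr ⟨by omega, Or.inl rfl⟩
  · exact Or.inr ⟨by omega, Or.inr rfl⟩

theorem nrm_snd (m p s : ℕ) : (nrm m p s).2 = s := by
  unfold nrm; split_ifs <;> rfl

theorem nrm_fst (m p s : ℕ) :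
    ((s = 0 ∨ s = 4 * m) ∧ (nrm m p s).1 = 0) ∨ (¬ (s = 0 ∨ s = 4 * m) ∧ (nrm m p s).1 = p) := by
  unfold nrm; split_ifs with h
  · exact Or.inl ⟨h, rfl⟩
  · exact Or.inr ⟨h, rfl⟩

theorem Near.ok {k m : ℕ} {x z : ℕ × ℕ} (hx : Ok k m x) (h : Near m x z) : Ok k m z := by
  obtain ⟨h1, h2, h3⟩ := hx
  rcases h with rfl | ⟨ho, rfl | rfl⟩
  · exact ⟨h1, h2, h3⟩
  · have a := nrm_fst m x.1 (x.2 + 1)
    have b := nrm_snd m x.1 (x.2 + 1)
    unfold Ok; omega
  · have a := nrm_fst m x.1 (x.2 - 1)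
    have b := nrm_snd m x.1 (x.2 - 1)
    unfold Ok; omega

theorem Near.trans {m : ℕ} {x y z : ℕ × ℕ} (h : Near m x y) (h' : Near m y z) : Near m x z := by
  rcases h with rfl | ⟨ho, h⟩
  · exact h'
  · rcases h' with rfl | ⟨ho', -⟩
    · exact Or.inr ⟨ho, h⟩
    · exfalso
      rcases h with rfl | rfl
      · rw [nrm_snd] at ho'; omega
      · rw [nrm_snd] at ho'; omega

theorem sg_cases (m q c : ℕ) (x : ℕ × ℕ) :
    (sg m q c x = none ∧ x.1 = q ∧ (x.2 = c ∨ x.2 = c + 2 * m)) ∨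
    (sg m q c x = some true ∧ x.1 = q ∧ c < x.2 ∧ x.2 < c + 2 * m) ∨
    (sg m q c x = some false ∧ (x.1 ≠ q ∨ x.2 < c ∨ c + 2 * m < x.2)) := by
  unfold sg
  split_ifs with h1 h2
  · exact Or.inl ⟨rfl, h1⟩
  · exact Or.inr (Or.inl ⟨rfl, h2⟩)
  · exact Or.inr (Or.inr ⟨rfl, by omega⟩)

theorem sg_none {m q c : ℕ} {x : ℕ × ℕ} (h1 : x.1 = q) (h2 : x.2 = c ∨ x.2 = c + 2 * m) :
    sg m q c x = none := by
  unfold sg; rw [if_pos ⟨h1, h2⟩]

theorem sg_true {m q c : ℕ} {x : ℕ × ℕ} (h1 : x.1 = q) (h2 : c < x.2) (h3 : x.2 < c + 2 * m) :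
    sg m q c x = some true := by
  unfold sg; rw [if_neg (by omega), if_pos ⟨h1, h2, h3⟩]

theorem sg_false {m q c : ℕ} {x : ℕ × ℕ} (h : x.1 ≠ q ∨ x.2 < c ∨ c + 2 * m < x.2) :
    sg m q c x = some false := by
  unfold sg; rw [if_neg (by omega), if_neg (by omega)]

theorem col_cases (m s : ℕ) : (s < 2 * m ∧ col m s = s) ∨ (2 * m ≤ s ∧ col m s = s - 2 * m) := by
  unfold col; split_ifs <;> omega

theorem sg_near {k m q c : ℕ} (hc : c % 2 = 1) (hc' : c < 2 * m) {x z : ℕ × ℕ} (hx : Ok k m x)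
    (h : Near m x z) (hn : sg m q c x ≠ none) : sg m q c z = sg m q c x := by
  obtain ⟨h1, h2, h3⟩ := hx
  rcases h with rfl | ⟨ho, rfl | rfl⟩
  · rfl
  · have a := nrm_fst m x.1 (x.2 + 1)
    have b := nrm_snd m x.1 (x.2 + 1)
    rcases sg_cases m q c x with h | h | h
    · exact absurd h.1 hn
    · rw [h.1]; exact sg_true (by omega) (by omega) (by omega)
    · rw [h.1]; exact sg_false (by omega)
  · have a := nrm_fst m x.1 (x.2 - 1)
    have b := nrm_snd m x.1 (x.2 - 1)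
    rcases sg_cases m q c x with h | h | h
    · exact absurd h.1 hn
    · rw [h.1]; exact sg_true (by omega) (by omega) (by omega)
    · rw [h.1]; exact sg_false (by omega)

theorem sg_rm {k m q c : ℕ} (hc : c % 2 = 1) (hc' : c < 2 * m) {x : ℕ × ℕ} (hx : Ok k m x)
    (y : ℕ × ℕ) : sg m q c (rm m x y) = (sg m q c x).or (sg m q c y) := by
  by_cases hn : sg m q c x = none
  · rw [hn, Option.none_or]
    obtain ⟨h1, h2, h3⟩ := hx
    have hx' : x.1 = q ∧ (x.2 = c ∨ x.2 = c + 2 * m) := by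
      rcases sg_cases m q c x with h | h | h
      · exact h.2
      · rw [hn] at h; exact absurd h.1 (by simp)
      · rw [hn] at h; exact absurd h.1 (by simp)
    have hcol : col m x.2 = c := by have := col_cases m x.2; omega
    have a := nrm_fst m x.1 (x.2 + 1)
    have b := nrm_snd m x.1 (x.2 + 1)
    have a' := nrm_fst m x.1 (x.2 - 1)
    have b' := nrm_snd m x.1 (x.2 - 1)
    unfold rm
    rw [if_neg (by omega), hcol, hx'.1]
    rw [hx'.1] at a b a' b'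
    rcases sg_cases m q c y with h | h | h
    · rw [if_pos h.1, hn, h.1]
    · rw [h.1, if_neg (by simp)]
      split_ifs with h4
      · have := h4.1 rfl
        exact sg_true (by omega) (by omega) (by omega)
      · have : ¬ x.2 < 2 * m := fun h5 => h4 ⟨fun _ => h5, fun _ => rfl⟩
        exact sg_true (by omega) (by omega) (by omega)
    · rw [h.1, if_neg (by simp)]
      split_ifs with h4
      · have : ¬ x.2 < 2 * m := fun h5 => absurd (h4.2 h5) (by simp)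
        exact sg_false (by omega)
      · have : x.2 < 2 * m := by
          by_contra h5
          exact h4 ⟨fun h6 => absurd h6 (by simp), fun h6 => absurd h6 h5⟩
        exact sg_false (by omega)
  · rw [sg_near hc hc' hx (near_rm m x y) hn]
    obtain ⟨t, ht⟩ := Option.ne_none_iff_exists'.1 hn
    rw [ht, Option.some_or]

theorem sg_inj {k m : ℕ} (hm : 2 ≤ m) {x y : ℕ × ℕ} (hx : Ok k m x) (hy : Ok k m y)
    (h : ∀ q c, c % 2 = 1 → c < 2 * m → sg m q c x = sg m q c y) :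
    x = y ∨ (x.2 = 0 ∧ y.2 = 4 * m) ∨ (x.2 = 4 * m ∧ y.2 = 0) := by
  obtain ⟨h1, h2, h3⟩ := hx
  obtain ⟨h4, h5, h6⟩ := hy
  by_contra hne
  have hne' : ¬ (x.1 = y.1 ∧ x.2 = y.2) := fun h => hne (Or.inl (Prod.ext h.1 h.2))
  have key : ∀ q c, c % 2 = 1 → c < 2 * m →
      ((x.1 = q ∧ (x.2 = c ∨ x.2 = c + 2 * m)) ∧ (y.1 = q ∧ (y.2 = c ∨ y.2 = c + 2 * m))) ∨
      ((x.1 = q ∧ c < x.2 ∧ x.2 < c + 2 * m) ∧ (y.1 = q ∧ c < y.2 ∧ y.2 < c + 2 * m)) ∨
      ((x.1 ≠ q ∨ x.2 < c ∨ c + 2 * m < x.2) ∧ (y.1 ≠ q ∨ y.2 < c ∨ c + 2 * m < y.2)) := by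
    intro q c hc hc'
    have e := h q c hc hc'
    rcases sg_cases m q c x with a | a | a <;> rcases sg_cases m q c y with b | b | b <;>
      first
      | exact Or.inl ⟨a.2, b.2⟩
      | exact Or.inr (Or.inl ⟨a.2, b.2⟩)
      | exact Or.inr (Or.inr ⟨a.2, b.2⟩)
      | (rw [a.1, b.1] at e; exact absurd e (by simp))
  have k1 := key x.1 1 (by omega) (by omega)
  have k2 := key x.1 (2 * m - 1) (by omega) (by omega)
  have k3 := key y.1 1 (by omega) (by omega)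
  have k4 := key y.1 (2 * m - 1) (by omega) (by omega)
  have hp : x.1 = y.1 := by omega
  have hxy : x.2 ≠ y.2 := fun h => hne' ⟨hp, h⟩
  have c1 := col_cases m x.2
  have c2 := col_cases m y.2
  rcases Nat.lt_or_gt_of_ne hxy with hl | hl
  · by_cases hs : x.2 < 2 * m
    · have k5 := key x.1 (x.2 + 1 - x.2 % 2) (by omega) (by omega)
      omega
    · have k5 := key x.1 (x.2 + 1 - x.2 % 2 - 2 * m) (by omega) (by omega)
      omega
  · by_cases hs : y.2 < 2 * m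
    · have k5 := key x.1 (y.2 + 1 - y.2 % 2) (by omega) (by omega)
      omega
    · have k5 := key x.1 (y.2 + 1 - y.2 % 2 - 2 * m) (by omega) (by omega)
      omega

end Pool.Agent.H.MP_81d707_al
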