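import Pool.Agent.H.MP_81d707_al.A

set_option autoImplicit false

namespace Pool.Agent.H.MP_81d707_al

theorem Near.snd {m : ℕ} {x z : ℕ × ℕ} (h : Near m x z) : z.2 ≤ x.2 + 1 ∧ x.2 ≤ z.2 + 1 := by
  rcases h with rfl | ⟨ho, rfl | rfl⟩
  · omega
  · rw [nrm_snd]; omega
  · rw [nrm_snd]; omega

/-- The theta-graph band with `k + 1` paths. -/
def T (k n : ℕ) : Type := {x : ℕ × ℕ // Ok k (n + 2) x}

instance (k n : ℕ) : Finite (T k n) := by
  have : Set.Finite {x : ℕ × ℕ | Ok k (n + 2) x} :=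
    ((Set.finite_Iic k).prod (Set.finite_Iic (4 * (n + 2)))).subset fun x hx => ⟨hx.1, hx.2.1⟩
  exact this.to_subtype

instance (k n : ℕ) : Semigroup (T k n) where
  mul x y := ⟨rm (n + 2) x.1 y.1, (near_rm _ _ _).ok x.2⟩
  mul_assoc x y z := by
    apply Subtype.ext
    change rm (n + 2) (rm (n + 2) x.1 y.1) z.1 = rm (n + 2) x.1 (rm (n + 2) y.1 z.1)
    have n1 : Near (n + 2) x.1 (rm (n + 2) (rm (n + 2) x.1 y.1) z.1) :=
      (near_rm _ _ _).trans (near_rm _ _ _)
    have n2 : Near (n + 2) x.1 (rm (n + 2) x.1 (rm (n + 2) y.1 z.1)) := near_rm _ _ _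
    rcases sg_inj (k := k) (m := n + 2) (by omega) (n1.ok x.2) (n2.ok x.2) (fun q c hc hc' => by
      rw [sg_rm hc hc' ((near_rm _ _ _).ok x.2), sg_rm hc hc' x.2, sg_rm hc hc' x.2,
        sg_rm hc hc' y.2, Option.or_assoc]) with h | h | h
    · exact h
    · have := n1.snd; have := n2.snd; omega
    · have := n1.snd; have := n2.snd; omega

theorem mul_val {k n : ℕ} (x y : T k n) : (x * y).1 = rm (n + 2) x.1 y.1 := rfl

theorem vertex_mul {k n : ℕ} (x y : T k n) (h : x.1.2 % 2 = 0) : x * y = x := by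
  apply Subtype.ext
  rw [mul_val]; unfold rm; rw [if_pos h]

theorem rm_up {m p s : ℕ} (hs : s % 2 = 1) (hs' : s ≤ 4 * m) :
    rm m (p, s) (nrm m p (s + 1)) = nrm m p (s + 1) := by
  have a := nrm_fst m p (s + 1)
  have b := nrm_snd m p (s + 1)
  have c := col_cases m s
  unfold rm
  simp only
  rw [if_neg (by omega)]
  by_cases h : s < 2 * m
  · rw [sg_true (by omega) (by omega) (by omega), if_neg (by simp), if_pos (by simp [h])]
  · rw [sg_false (by omega), if_neg (by simp), if_pos (by simp [h])]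

theorem rm_down {m p s : ℕ} (hs : s % 2 = 1) (hs' : s ≤ 4 * m) :
    rm m (p, s) (nrm m p (s - 1)) = nrm m p (s - 1) := by
  have a := nrm_fst m p (s - 1)
  have b := nrm_snd m p (s - 1)
  have c := col_cases m s
  unfold rm
  simp only
  rw [if_neg (by omega)]
  by_cases h : s < 2 * m
  · rw [sg_false (by omega), if_neg (by simp), if_neg (by simp [h])]
  · rw [sg_true (by omega) (by omega) (by omega), if_neg (by simp), if_neg (by simp [h])]

theorem rm_self {m p s : ℕ} (hs : s % 2 = 1) : rm m (p, s) (p, s) = (p, s) := by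
  have c := col_cases m s
  unfold rm
  simp only
  rw [if_neg (by omega), if_pos (sg_none (x := (p, s)) rfl (by simp only; omega))]

theorem rm_ne {m p s p' s' : ℕ} (hs : s % 2 = 1) (hp : p' ≠ p) :
    (rm m (p, s) (p', s')).2 % 2 = 0 := by
  unfold rm
  simp only
  rw [if_neg (by omega), sg_false (Or.inl hp), if_neg (by simp)]
  split_ifs <;> rw [nrm_snd] <;> omega

theorem ok_nrm {k m p s : ℕ} (hp : p ≤ k) (hs : s ≤ 4 * m) : Ok k m (nrm m p s) := by
  have a := nrm_fst m p s
  have b := nrm_snd m p s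
  unfold Ok; omega

/-- First end. -/
def ta (k n : ℕ) : T k n := ⟨(0, 0), by unfold Ok; simp⟩

/-- Second end. -/
def tb (k n : ℕ) : T k n := ⟨(0, 4 * (n + 2)), by unfold Ok; simp⟩

theorem collapse {S : Type*} [Semigroup S] [Finite S] (k n : ℕ) (hk : k = Nat.card S)
    (φ : T k n → S) (hφ : ∀ x y, φ (x * y) = φ x * φ y) : φ (ta k n) = φ (tb k n) := by
  classical
  by_contra hne
  let v : Fin (k + 1) → ℕ → T k n := fun p i =>
    ⟨nrm (n + 2) p (2 * min i (2 * (n + 2))), ok_nrm (by omega) (by omega)⟩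
  have hex : ∀ p : Fin (k + 1), ∃ i, i < 2 * (n + 2) ∧ φ (v p i) ≠ φ (v p (i + 1)) := by
    intro p
    by_contra hall
    push Not at hall
    have h0 : ∀ i, i ≤ 2 * (n + 2) → φ (v p i) = φ (v p 0) := by
      intro i
      induction i with
      | zero => intro _; rfl
      | succ i ih => intro hi; rw [← hall i (by omega), ih (by omega)]
    have e0 : v p 0 = ta k n := by
      apply Subtype.ext
      simp [v, ta, nrm]
    have e1 : v p (2 * (n + 2)) = tb k n := by
      apply Subtype.ext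
      simp only [v, tb, nrm, min_self]
      rw [if_pos (Or.inr (by ring))]
      congr 1; ring
    exact hne (by rw [← e0, ← e1, h0 _ le_rfl])
  choose i hi hv using hex
  let e : Fin (k + 1) → T k n := fun p =>
    ⟨(p, 2 * i p + 1), by have := hi p; have := p.2; unfold Ok; simp only; omega⟩
  have := Fintype.ofFinite S
  obtain ⟨p, p', hpp, he⟩ := Fintype.exists_ne_map_eq_of_card_lt (fun p => φ (e p))
    (by rw [Fintype.card_fin, ← Nat.card_eq_fintype_card]; omega)
  have hi' := hi p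
  have ee : e p * e p = e p := Subtype.ext (rm_self (by omega))
  have hw : (e p * e p').1.2 % 2 = 0 :=
    rm_ne (by omega) fun h => hpp (Fin.ext h).symm
  have hw' : φ (e p * e p') = φ (e p) := by
    rw [hφ, ← he, ← hφ, ee]
  have all : ∀ u, φ (e p * u) = φ (e p) := fun u => by
    rw [hφ, ← hw', ← hφ, vertex_mul _ _ hw]
  have d1 : e p * v p (i p) = v p (i p) := by
    apply Subtype.ext
    have : 2 * min (i p) (2 * (n + 2)) = 2 * i p + 1 - 1 := by omega
    rw [mul_val]
    simp only [v, e, this]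
    exact rm_down (by omega) (by omega)
  have d2 : e p * v p (i p + 1) = v p (i p + 1) := by
    apply Subtype.ext
    have : 2 * min (i p + 1) (2 * (n + 2)) = 2 * i p + 1 + 1 := by omega
    rw [mul_val]
    simp only [v, e, this]
    exact rm_up (by omega) (by omega)
  exact hv p (by rw [← d1, ← d2, all, all])

theorem missing {k n : ℕ} (G : Finset (T k n)) (hG : G.card ≤ n) (p : ℕ) :
    ∃ s, s % 2 = 1 ∧ s ≤ 4 * (n + 2) ∧ ∀ x ∈ G, x.1 ≠ (p, s) := by
  classical
  by_contra h
  push Not at h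
  have h1 : (Finset.range (2 * (n + 2))).card ≤ (G.image fun x => x.1).card := by
    refine Finset.card_le_card_of_injOn (fun i => (p, 2 * i + 1)) ?_ ?_
    · intro i hi
      have hi' : i < 2 * (n + 2) := Finset.mem_range.1 hi
      obtain ⟨x, hx, hx'⟩ := h (2 * i + 1) (by omega) (by omega)
      exact Finset.mem_coe.2 (Finset.mem_image.2 ⟨x, hx, hx'⟩)
    · intro i _ j _ hij
      have := congrArg Prod.snd hij
      simp only at this
      omega
  have h2 : (G.image fun x => x.1).card ≤ G.card := Finset.card_image_le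
  rw [Finset.card_range] at h1
  omega

/-- The local separation property and the global collapse. -/
def Gadget (S : Type*) [Semigroup S] (n : ℕ) : Prop :=
  ∃ (T : Type) (_ : Semigroup T) (_ : Finite T) (a b : T), a ≠ b ∧
    (∀ φ : T → S, (∀ x y, φ (x * y) = φ x * φ y) → φ a = φ b) ∧
    ∀ G : Finset T, G.card ≤ n → ∃ U : Set T, (∀ x ∈ G, x ∈ U) ∧ (∀ x ∈ U, ∀ y ∈ U, x * y ∈ U) ∧
      ∀ x ∈ U, ∀ y ∈ U, x ≠ y →
        ∃ φ : T → S, (∀ u ∈ U, ∀ v ∈ U, φ (u * v) = φ u * φ v) ∧ φ x ≠ φ y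

theorem gadget_left {S : Type*} [Semigroup S] [Finite S] (ι : Option Bool → S)
    (hι : Function.Injective ι) (hm : ∀ x y, ι (x.or y) = ι x * ι y) (n : ℕ) : Gadget S n := by
  classical
  refine ⟨T (Nat.card S) n, inferInstance, inferInstance, ta _ n, tb _ n, ?_,
    collapse _ n rfl, ?_⟩
  · intro h
    have := congrArg (fun x : T (Nat.card S) n => x.1.2) h
    simp [ta, tb] at this
  intro G hG
  choose s hs hs' hsG using missing G hG
  have hU : ∀ x z : T (Nat.card S) n, x.1.2 ≠ s x.1.1 → Near (n + 2) x.1 z.1 →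
      z.1.2 ≠ s z.1.1 ∧ (z.1.2 < s z.1.1 ↔ x.1.2 < s x.1.1) := by
    intro x z hx hz
    have o1 := hs x.1.1
    have o2 := hs' x.1.1
    have o3 := hs 0
    have o4 := hs' 0
    rcases hz with h | ⟨ho, h | h⟩
    · rw [h]; exact ⟨hx, Iff.rfl⟩
    · have b := nrm_snd (n + 2) x.1.1 (x.1.2 + 1)
      rcases nrm_fst (n + 2) x.1.1 (x.1.2 + 1) with a | a <;> rw [h, a.2, b] <;> omega
    · have b := nrm_snd (n + 2) x.1.1 (x.1.2 - 1)
      rcases nrm_fst (n + 2) x.1.1 (x.1.2 - 1) with a | a <;> rw [h, a.2, b] <;> omega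
  refine ⟨{x | x.1.2 ≠ s x.1.1}, fun x hx h => hsG x.1.1 x hx (Prod.ext rfl h),
    fun x hx y _ => (hU x (x * y) hx (near_rm _ _ _)).1, ?_⟩
  intro x _ y _ hxy
  by_cases h : ∀ q c, c % 2 = 1 → c < 2 * (n + 2) → sg (n + 2) q c x.1 = sg (n + 2) q c y.1
  · refine ⟨fun z => ι (some (decide (z.1.2 < s z.1.1))), fun u hu v _ => ?_, fun he => ?_⟩
    · rw [← hm, Option.some_or]
      exact congrArg (fun t => ι (some t))
        (decide_eq_decide.2 (hU u (u * v) hu (near_rm _ _ _)).2)
    · have he' := decide_eq_decide.1 (Option.some.inj (hι he))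
      have o1 := hs x.1.1
      have o2 := hs' x.1.1
      have o3 := hs y.1.1
      have o4 := hs' y.1.1
      rcases sg_inj (by omega) x.2 y.2 h with h' | h' | h'
      · exact hxy (Subtype.ext h')
      · omega
      · omega
  · push Not at h
    obtain ⟨q, c, hc, hc', h⟩ := h
    refine ⟨fun z => ι (sg (n + 2) q c z.1), fun u _ v _ => ?_, fun he => h (hι he)⟩
    rw [← hm]
    exact congrArg ι (sg_rm hc hc' u.2 v.1)

theorem Gadget.op {S : Type*} [Semigroup S] {n : ℕ} (h : Gadget Sᵐᵒᵖ n) : Gadget S n := by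
  classical
  obtain ⟨T, _, _, a, b, hab, h1, h2⟩ := h
  refine ⟨Tᵐᵒᵖ, inferInstance, Finite.of_equiv T MulOpposite.opEquiv, MulOpposite.op a,
    MulOpposite.op b,
    fun h => hab (MulOpposite.op_injective h), fun φ hφ => ?_, fun G hG => ?_⟩
  · exact MulOpposite.op_injective (h1 (fun x => MulOpposite.op (φ (MulOpposite.op x)))
      fun x y => by rw [MulOpposite.op_mul, hφ, MulOpposite.op_mul])
  · obtain ⟨U, hU1, hU2, hU3⟩ := h2 (G.image MulOpposite.unop) (Finset.card_image_le.trans hG)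
    refine ⟨{x | x.unop ∈ U}, fun x hx => hU1 _ (Finset.mem_image_of_mem _ hx),
      fun x hx y hy => hU2 _ hy _ hx, fun x hx y hy hxy => ?_⟩
    obtain ⟨φ, hφ, hne⟩ := hU3 _ hx _ hy fun h => hxy (MulOpposite.unop_injective h)
    refine ⟨fun z => (φ z.unop).unop, fun u hu v hv => ?_,
      fun h => hne (MulOpposite.unop_injective h)⟩
    simp only [MulOpposite.unop_mul]
    rw [hφ _ hv _ hu, MulOpposite.unop_mul]

end Pool.Agent.H.MP_81d707_al
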